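import Pool.Agent.E8helper59.PN.All

/-!
# Partition numbers of direct products with respect to arbitrary norms

The definitions used by the theorem (`Pool.Agent.E8helper59.PN.Stm`, `Stm2`, `Fin`); `G` and `F` are
subsets of `Fin n → ℝ`.

* `Body K`: `K` is compact, convex, with nonempty interior.
* `Dm G F`: the `G`-diameter of `F`, i.e. the supremum of `gauge G (x - y)`, `x, y ∈ F`.
* `Splits k G F`: `F` is the union of `k` sets of smaller `G`-diameter, i.e. `a_G(F) ≤ k`.
* `Par F`: `F` is an affine image of the cube `[0,1]^n`.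
* `Q1At n G F`: the statement of Q1 for `G` and `F`: `a_G(F) ≤ 2^n`, and if `a_G(F) = 2^n` then `F` and
  `G` are homothetic parallelepipeds.  `Q1For n F`: this holds for all centrally symmetric `G`.
* `Join n₁ n₂ F₁ F₂`: the direct product `F₁ × F₂` in `ℝ^(n₁+n₂)`.
-/

set_option autoImplicit false
open Set
open scoped Pointwise

namespace Pool.Agent.Results.MP_c15520_co.DirectProductsH59

open Pool.Agent.E8helper59.PN

/-- **Theorem.** The bodies `F` for which Q1 holds with all norms are closed under direct products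
(in particular under `F ↦ F × [0,1]`), again with all norms on the product. -/
theorem result :
    ∀ (n₁ n₂ : ℕ) (F₁ : Set (Fin n₁ → ℝ)) (F₂ : Set (Fin n₂ → ℝ)), 1 ≤ n₁ → 1 ≤ n₂ →
      Body F₁ → Body F₂ → Q1For n₁ F₁ → Q1For n₂ F₂ → Q1For (n₁ + n₂) (Join n₁ n₂ F₁ F₂) :=
  prod_all

end Pool.Agent.Results.MP_c15520_co.DirectProductsH59
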