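import Pool.Agent.E8helper59.PN.All

/-!
# Partition numbers of convex bodies: elimination of the norm

The definitions used by the theorem (`Pool.Agent.E8helper59.PN.Stm`, `Stm2`, `Fin`); `G` and `F` are
subsets of `Fin n → ℝ`.

* `Body K`: `K` is compact, convex, with nonempty interior.
* `Dm G F`: the `G`-diameter of `F`, i.e. the supremum of `gauge G (x - y)`, `x, y ∈ F`.
* `Splits k G F`: `F` is the union of `k` sets of smaller `G`-diameter, i.e. `a_G(F) ≤ k`.
* `Par F`: `F` is an affine image of the cube `[0,1]^n`.
* `Q1At n G F`: the statement of Q1 for `G` and `F`: `a_G(F) ≤ 2^n`, and if `a_G(F) = 2^n` then `F` and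
  `G` are homothetic parallelepipeds.  `Q1For n F`: this holds for all centrally symmetric `G`.
* `NF n F`: the norm-free statement: `F` is the union of `2^n` sets of smaller `(F-F)`-diameter, and if
  `2^n - 1` such sets do not suffice, then `F` is a parallelepiped.
-/

set_option autoImplicit false
open Set
open scoped Pointwise

namespace Pool.Agent.Results.MP_c15520_co.NormEliminationH59

open Pool.Agent.E8helper59.PN

/-- **Theorem.** For every convex body `F`: Q1 holds for `F` and all norms if and only if it holds in
the form `NF n F`, in which only the norm of the difference body of `F` occurs. -/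
theorem result :
    ∀ (n : ℕ) (F : Set (Fin n → ℝ)), 1 ≤ n → Body F → (Q1For n F ↔ NF n F) :=
  norm_elim

end Pool.Agent.Results.MP_c15520_co.NormEliminationH59
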